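import Pool.Agent.Results.MP_e58d4b_co.StrictlyBetween

/-!
# Partial shattering by `o(log n)` permutations: `t ≤ 21` for all `k ≥ 6`

The starting library (`Pool.Agent.W926.PS`) contains families of `o(log n)` permutations of `[n]`
which induce at least `21` orderings on every six-element set. They induce at least `21` orderings
on every larger set, so `f_k(n, t) = o(log n)` for all `k ≥ 6` and `t ≤ 21`.
-/

set_option autoImplicit false

open Finset Filter Topology

namespace Pool.Agent.Results.MP_157e4e_co.TwentyOne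

/-- The ordering of `X` induced by the permutation `ρ` (viewed as the linear order
`x <_ρ y ↔ ρ x < ρ y`), as a relation on `X`. -/
def inducedOrder {n : ℕ} (ρ : Equiv.Perm (Fin n)) (X : Finset (Fin n)) : X → X → Prop :=
  fun x y => ρ x < ρ y

/-- The family `P` `t`-shatters `X`: its members induce at least `t` distinct orderings of `X`. -/
def Shatters {n : ℕ} (t : ℕ) (P : Finset (Equiv.Perm (Fin n))) (X : Finset (Fin n)) : Prop :=
  t ≤ ((fun ρ : Equiv.Perm (Fin n) => inducedOrder ρ X) '' (P : Set (Equiv.Perm (Fin n)))).ncard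

/-- `f k n t` is the minimum size of a family of permutations of `[n]` that `t`-shatters every
`k`-element subset. -/
noncomputable def f (k n t : ℕ) : ℕ :=
  sInf {s | ∃ P : Finset (Equiv.Perm (Fin n)), P.card = s ∧
    ∀ X : Finset (Fin n), X.card = k → Shatters t P X}

/-- A family which `t`-shatters a set `t'`-shatters every larger set, for `t' ≤ t`. -/
theorem Shatters.mono {n t t' : ℕ} (ht : t' ≤ t) {P : Finset (Equiv.Perm (Fin n))}
    {X Y : Finset (Fin n)} (hXY : X ⊆ Y) (h : Shatters t P X) : Shatters t' P Y := by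
  have e : (fun ρ : Equiv.Perm (Fin n) => inducedOrder ρ X) '' (P : Set (Equiv.Perm (Fin n))) =
      (fun R : Y → Y → Prop => fun x y : X => R ⟨x, hXY x.2⟩ ⟨y, hXY y.2⟩) ''
        ((fun ρ : Equiv.Perm (Fin n) => inducedOrder ρ Y) ''
          (P : Set (Equiv.Perm (Fin n)))) := by
    rw [Set.image_image]
    rfl
  have h' : t ≤ _ := h
  rw [e] at h'
  exact ht.trans (h'.trans (Set.ncard_image_le ((P.finite_toSet).image _)))

theorem small (K : ℕ) : ∃ n₀ : ℕ, ∀ n ≥ n₀,
    ∃ P : Finset (Equiv.Perm (Fin n)), K * P.card ≤ Nat.log 2 n ∧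
      ∀ X : Finset (Fin n), 6 ≤ X.card → Shatters 21 P X := by
  obtain ⟨n₀, h⟩ := W926.PS.up_shatters
    Pool.Agent.Results.MP_e58d4b_co.StrictlyBetween.hUp Pool.Agent.W515.PS.Conv.conv K
  refine ⟨n₀, fun n hn => ?_⟩
  obtain ⟨P, hP, hX⟩ := h n hn
  refine ⟨P, hP, fun Y hY => ?_⟩
  obtain ⟨X, hXY, hc⟩ := Finset.exists_subset_card_eq hY
  have h6 : Shatters 21 P X := hX X hc
  exact h6.mono le_rfl hXY

/-- **Main theorem.** (1) `f_k(n, t) = o(log n)` for all `k ≥ 6` and all `t ≤ 21`. (2) For every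
`ε > 0` and all large `n` there is a family of at most `ε log n` permutations of `[n]` which induces
at least `21` distinct orderings on every subset with at least six elements. -/
theorem result :
    (∀ k t : ℕ, 6 ≤ k → t ≤ 21 →
      Tendsto (fun n : ℕ => (f k n t : ℝ) / Real.log n) atTop (𝓝 0)) ∧
    (∀ ε : ℝ, 0 < ε → ∃ n₀ : ℕ, ∀ n ≥ n₀, ∃ P : Finset (Equiv.Perm (Fin n)),
      (P.card : ℝ) ≤ ε * Real.log n ∧
        ∀ X : Finset (Fin n), 6 ≤ X.card → Shatters 21 P X) := by
  have key : ∀ ε : ℝ, 0 < ε → ∃ n₀ : ℕ, ∀ n ≥ n₀, ∃ P : Finset (Equiv.Perm (Fin n)),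
      (P.card : ℝ) ≤ ε * Real.log n ∧
        ∀ X : Finset (Fin n), 6 ≤ X.card → Shatters 21 P X := by
    intro ε hε
    obtain ⟨K, hK⟩ := exists_nat_gt (2 / ε)
    obtain ⟨n₀, h⟩ := small K
    refine ⟨max n₀ 1, fun n hn => ?_⟩
    obtain ⟨P, hP, hX⟩ := h n (le_trans (le_max_left _ _) hn)
    refine ⟨P, ?_, hX⟩
    have hn1 : 1 ≤ n := le_trans (le_max_right _ _) hn
    have hn0 : (0 : ℝ) < n := by exact_mod_cast hn1
    have hlog : 0 ≤ Real.log n := Real.log_nonneg (by exact_mod_cast hn1)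
    have h2 : (Nat.log 2 n : ℝ) ≤ 2 * Real.log n := by
      have h3 : ((2 : ℕ) ^ Nat.log 2 n : ℕ) ≤ n := Nat.pow_log_le_self 2 (by omega)
      have h4 : ((2 : ℝ)) ^ Nat.log 2 n ≤ n := by exact_mod_cast h3
      have h5 := Real.log_le_log (by positivity) h4
      rw [Real.log_pow] at h5
      have h6 : (1 : ℝ) / 2 ≤ Real.log 2 := by
        have := Real.log_two_gt_d9
        linarith
      have h7 : (0 : ℝ) ≤ Nat.log 2 n := Nat.cast_nonneg _
      nlinarith
    have h3 : (K : ℝ) * P.card ≤ Nat.log 2 n := by exact_mod_cast hP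
    have hK0 : (0 : ℝ) < K := lt_trans (by positivity) hK
    have h4 : 2 < ε * K := by
      rw [div_lt_iff₀ hε] at hK
      linarith
    have h5 : (K : ℝ) * P.card ≤ K * (ε * Real.log n) := by nlinarith
    exact le_of_mul_le_mul_left h5 hK0
  refine ⟨fun k t hk ht => ?_, key⟩
  rw [Metric.tendsto_atTop]
  intro ε hε
  obtain ⟨n₀, h⟩ := key (ε / 2) (by linarith)
  refine ⟨max n₀ 2, fun n hn => ?_⟩
  obtain ⟨P, hP, hX⟩ := h n (le_trans (le_max_left _ _) hn)
  have hn2 : 2 ≤ n := le_trans (le_max_right _ _) hn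
  have hlog : 0 < Real.log n := Real.log_pos (by exact_mod_cast (by omega : 1 < n))
  have h1 : f k n t ≤ P.card :=
    Nat.sInf_le ⟨P, rfl, fun X hXk => (hX X (by omega)).mono ht subset_rfl⟩
  have h2 : (f k n t : ℝ) ≤ ε / 2 * Real.log n := le_trans (by exact_mod_cast h1) hP
  have h3 : 0 ≤ (f k n t : ℝ) / Real.log n := by positivity
  rw [Real.dist_eq, sub_zero, abs_of_nonneg h3, div_lt_iff₀ hlog]
  nlinarith

end Pool.Agent.Results.MP_157e4e_co.TwentyOne
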